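import Pool.Agent.H465.OC.StmB

/-! Project OC, task B7: relations between the values at the fixed point. -/

set_option autoImplicit false

namespace Pool.Agent.H93.OCFixRel

open Polynomial Pool.Agent.Q279.SC Pool.Agent.H465.OC

noncomputable section

lemma ls_mul {R : Type} [CommRing R] (f g : PowerSeries R) : ls (f * g) = ls f * ls g := by
  unfold ls
  exact map_mul _ _ _

lemma ls_one {R : Type} [CommRing R] : ls (1 : PowerSeries R) = 1 := by
  unfold ls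
  exact map_one _

lemma ls_pow {R : Type} [CommRing R] (f : PowerSeries R) (k : ℕ) : ls (f ^ k) = ls f ^ k := by
  unfold ls
  exact map_pow _ _ _

lemma ls_bb (R : Type) [CommRing R] (i : Fin 6) :
    ls (bb R i) = ls (q4 R) ^ ((![0, 1, 0, 2, 1, 2] : Fin 6 → ℕ) i) *
      ls (q6 R) ^ ((![0, 0, 1, 0, 1, 1] : Fin 6 → ℕ) i) := by
  fin_cases i <;> simp [bb, ls_mul, ls_one, ls_pow]

lemma rel_pow (h1 : RelRing) {p : ℕ} [Fact p.Prime] {B : Type} [CommRing B] [Algebra ℤ_[p] B]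
    {j : B} {c : ℤ_[p]} {F : ℤ_[p] → ℤ_[p]} {s : B} (h : Rel j c F s) (k : ℕ) :
    Rel j c (fun x => F x ^ k) (s ^ k) := by
  induction k with
  | zero =>
    have := (h1 p B j c).2.1 1
    rw [map_one] at this
    simpa using this
  | succ k ih =>
    have := ((h1 p B j c).2.2 _ _ _ _ ih h).2.1
    simpa [pow_succ] using this

lemma rel_poly {p : ℕ} [Fact p.Prime] {B : Type} [CommRing B] [Algebra ℤ_[p] B]
    (j : B) (c : ℤ_[p]) (A : ℤ_[p][X]) : Rel j c (fun x => A.eval x) (aeval j A) := by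
  intro M
  refine ⟨A, 1, by simp, by simp, fun x _ => by simp⟩

theorem main : RelRing → RelDiv → LSBasic → LSInj → HeckeZ → FixRel := by
  intro hring hdiv hbas hinj hhecke p hp c _ φ R4 R6 δ hφ h4 h6 hδ c0 hc0 hfix hne hne'
  obtain ⟨_, _, _, hDi, hi4, hi6, hj6, _⟩ := hbas p ℤ_[p]
  obtain ⟨hI, hNZ, _⟩ := hinj p
  obtain ⟨hd1, hd2⟩ := hdiv p (LaurentSeries ℤ_[p]) (jj ℤ_[p]) c hI hNZ
  obtain ⟨rid, rconst, rops⟩ := hring p (LaurentSeries ℤ_[p]) (jj ℤ_[p]) c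
  have rmul : ∀ {F F' : ℤ_[p] → ℤ_[p]} {s s' : LaurentSeries ℤ_[p]}, Rel (jj ℤ_[p]) c F s →
      Rel (jj ℤ_[p]) c F' s' → Rel (jj ℤ_[p]) c (fun x => F x * F' x) (s * s') :=
    fun h h' => (rops _ _ _ _ h h').2.1
  have rsub : ∀ {F F' : ℤ_[p] → ℤ_[p]} {s s' : LaurentSeries ℤ_[p]}, Rel (jj ℤ_[p]) c F s →
      Rel (jj ℤ_[p]) c F' s' → Rel (jj ℤ_[p]) c (fun x => F x - F' x) (s - s') :=
    fun h h' => (rops _ _ _ _ h h').2.2
  -- equal series have equal functions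
  have req : ∀ {F F' : ℤ_[p] → ℤ_[p]} {s s' : LaurentSeries ℤ_[p]}, Rel (jj ℤ_[p]) c F s →
      Rel (jj ℤ_[p]) c F' s' → s = s' → F c0 = F' c0 := by
    intro F F' s s' h h' he
    have h0 := rsub h h'
    rw [he, sub_self] at h0
    exact sub_eq_zero.1 (hd2 _ h0 c0 hc0)
  set V := VV p ℤ_[p] with hV
  set D := ls (qD ℤ_[p]) with hD
  set e4 := ls (q4 ℤ_[p]) with he4
  set e6 := ls (q6 ℤ_[p]) with he6
  set i4 := ls (PowerSeries.invOfUnit (q4 ℤ_[p]) 1) with hi4'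
  set i6 := ls (PowerSeries.invOfUnit (q6 ℤ_[p]) 1) with hi6'
  set I := Di ℤ_[p] with hII
  have hs4 : s4 p = V e4 * i4 := rfl
  have hs6 : s6 p = V e6 * i6 := rfl
  have hsD : sD p = V D * I := rfl
  have hjj : jj ℤ_[p] = e4 ^ 3 * I := rfl
  have hVDI : V D * V I = 1 := by rw [← map_mul, hDi, map_one]
  have r1728 : Rel (jj ℤ_[p]) c (fun _ => (1728 : ℤ_[p])) 1728 := by
    have := rconst 1728
    rwa [map_ofNat] at this
  -- first relation
  have id1 : s4 p ^ 3 * jj ℤ_[p] = V (jj ℤ_[p]) * sD p := by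
    rw [hs4, hsD, hjj, map_mul, map_pow]
    calc (V e4 * i4) ^ 3 * (e4 ^ 3 * I) = V e4 ^ 3 * (e4 * i4) ^ 3 * I := by ring
      _ = V e4 ^ 3 * I * (V D * V I) := by rw [hi4, hVDI]; ring
      _ = V e4 ^ 3 * V I * (V D * I) := by ring
  have id2 : s6 p ^ 2 * (jj ℤ_[p] - 1728) = (V (jj ℤ_[p]) - 1728) * sD p := by
    have h1 : V (jj ℤ_[p]) - 1728 = V e6 ^ 2 * V I := by
      have h2 : V (1728 : LaurentSeries ℤ_[p]) = 1728 := map_ofNat _ _
      rw [← map_pow, ← map_mul, hj6, map_sub, h2]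
    rw [h1, ← hj6, hs6, hsD]
    calc (V e6 * i6) ^ 2 * (e6 ^ 2 * I) = V e6 ^ 2 * (e6 * i6) ^ 2 * I := by ring
      _ = V e6 ^ 2 * I * (V D * V I) := by rw [hi6, hVDI]; ring
      _ = V e6 ^ 2 * V I * (V D * I) := by ring
  have k1 : R4 c0 ^ 3 * c0 = φ c0 * δ c0 :=
    req (F := fun x => R4 x ^ 3 * x) (F' := fun x => φ x * δ x)
      (rmul (rel_pow hring h4 3) rid) (rmul hφ hδ) id1
  have k2 : R6 c0 ^ 2 * (c0 - 1728) = (φ c0 - 1728) * δ c0 :=
    req (F := fun x => R6 x ^ 2 * (x - 1728)) (F' := fun x => (φ x - 1728) * δ x)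
      (rmul (rel_pow hring h6 2) (rsub rid r1728)) (rmul (rsub hφ r1728) hδ) id2
  rw [hfix] at k1 k2
  refine ⟨?_, ?_, ?_, ?_⟩
  · exact mul_right_cancel₀ hne (k1.trans (mul_comm _ _))
  · exact mul_right_cancel₀ (sub_ne_zero.2 hne') (k2.trans (mul_comm _ _))
  · -- the unit
    obtain ⟨A, hA⟩ := hhecke p ℤ_[p] 0 1 (by simp [rr]) 1
    have hb0 : ls (bb ℤ_[p] 0) = 1 := by simp [bb, ls_one]
    rw [hb0] at hA
    simp only [one_mul, pow_one, map_one, mul_one] at hA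
    have h5 : sD p * aeval (jj ℤ_[p]) A - 1 =
        (p : LaurentSeries ℤ_[p]) ^ 1 *
          ((p : LaurentSeries ℤ_[p]) ^ (12 - rr 0) * V D * UU p ℤ_[p] I) := by
      have h6 : V D * (I * aeval (jj ℤ_[p]) A) = V D * V I +
          V D * ((p : LaurentSeries ℤ_[p]) ^ (12 + 1 - rr 0) * UU p ℤ_[p] I) := by
        rw [← mul_add, hA]
      rw [hVDI] at h6
      have h7 : rr 0 = 0 := by simp [rr]
      rw [h7] at h6 ⊢
      rw [hsD, mul_assoc, h6]
      ring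
    have h8 : Rel (jj ℤ_[p]) c (fun x => δ x * A.eval x - 1)
        ((p : LaurentSeries ℤ_[p]) ^ 1 *
          ((p : LaurentSeries ℤ_[p]) ^ (12 - rr 0) * V D * UU p ℤ_[p] I)) := by
      rw [← h5]
      have r1 : Rel (jj ℤ_[p]) c (fun _ => (1 : ℤ_[p])) 1 := by
        have := rconst 1
        rwa [map_one] at this
      exact rsub (rmul hδ (rel_poly _ _ A)) r1
    obtain ⟨F', _, hF'⟩ := hd1 _ _ 1 h8
    have h9 := hF' c0 hc0
    simp only [pow_one] at h9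
    rw [PadicInt.isUnit_iff]
    by_contra hlt
    have h10 : ‖δ c0‖ < 1 := lt_of_le_of_ne (PadicInt.norm_le_one _) hlt
    rw [PadicInt.norm_lt_one_iff_dvd] at h10
    have h11 : (p : ℤ_[p]) ∣ 1 := by
      have h12 : (1 : ℤ_[p]) = δ c0 * A.eval c0 - p * F' c0 := by rw [← h9]; ring
      rw [h12]
      exact dvd_sub (h10.mul_right _) (dvd_mul_right _ _)
    rw [← PadicInt.norm_lt_one_iff_dvd, norm_one] at h11
    exact lt_irrefl _ h11
  · intro i _ L Λ hL hΛ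
    set a := (![0, 1, 0, 2, 1, 2] : Fin 6 → ℕ) i with ha
    set b := (![0, 0, 1, 0, 1, 1] : Fin 6 → ℕ) i with hb
    have hbb : ls (bb ℤ_[p] i) = e4 ^ a * e6 ^ b := ls_bb ℤ_[p] i
    have id3 : L * sD p = s4 p ^ a * s6 p ^ b := by
      rw [hbb] at hL
      rw [map_mul, map_mul, map_pow, map_pow] at hL
      rw [hs4, hs6, hsD]
      calc L * (V D * I) = L * (V D * I) * ((e4 * i4) ^ a * (e6 * i6) ^ b) := by
            rw [hi4, hi6]; simp
        _ = L * (e4 ^ a * e6 ^ b * I) * (V D * i4 ^ a * i6 ^ b) := by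
            rw [mul_pow, mul_pow]; ring
        _ = V e4 ^ a * V e6 ^ b * V I * (V D * i4 ^ a * i6 ^ b) := by rw [hL]
        _ = V e4 ^ a * V e6 ^ b * (V D * V I) * (i4 ^ a * i6 ^ b) := by ring
        _ = (V e4 * i4) ^ a * (V e6 * i6) ^ b := by rw [hVDI, mul_pow, mul_pow]; ring
    exact req (F := fun x => Λ x * δ x) (F' := fun x => R4 x ^ a * R6 x ^ b)
      (rmul hΛ hδ) (rmul (rel_pow hring h4 a) (rel_pow hring h6 b)) id3

end

end Pool.Agent.H93.OCFixRel
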